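import Pool.Agent.Helper243_Ev.AsymB
import Pool.Agent.H119R2.Kp.D4
import Pool.Agent.H119R2.Kp.PVE

set_option autoImplicit false

/-!
# Connectivity-like properties of small bandwidth are nearly evasive for all `n` (MP_257582_lc)

Let `P` be a monotone isomorphism-invariant property of graphs on `n` vertices, `k` a prime and `Q` a
prime power.

* `k Q ≤ n`: if `P` contains a graph of bandwidth at most `Q / (2 k)` and every member of `P` has a
  connected component with more than `n - Q` vertices, then `P` needs at least `C(k, 2) Q ^ 2` queries.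
* `n = k m`, `Q ≤ m`: the same holds if `P` contains a graph of bandwidth at most `Q / 2` and fails for
  `k` disjoint cliques on `m` vertices.
* So for all `η > 0` and `n ≥ n₀(k, η)` at least `(1 - 1 / k - η) n ^ 2 / 2` queries are needed if `P`
  contains a graph of bandwidth at most `n / (3 k ^ 2)` and every member of `P` has a component with at
  least `(1 - 1 / k + η) n` vertices; and for `n` divisible by `k` also if `P` contains a graph of
  bandwidth at most `(1 / (2 k) - η) n` and fails for `k` disjoint cliques on `n / k` vertices.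

The same is true if the dual property satisfies one of the conditions. For `k → ∞`: for every `ε > 0`
there is a `δ > 0` such that for all `n ≥ n₀` EVERY monotone isomorphism-invariant property of CONNECTED
graphs on `n` vertices that contains at least one graph of bandwidth at most `δ n` has complexity at
least `(1 / 2 - ε) n ^ 2`. This includes the quantitative forms of connectivity: diameter (radius,
average distance) at most `d` for `d ≥ 1 / δ`, at least `τ` spanning trees, algebraic connectivity, edge
expansion or toughness at least `λ`, connected and of minimum degree at least `d`, ..., as long as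
some graph of bandwidth at most `δ n` satisfies the condition. For general properties and general `n`
the published lower bound is `n ^ 2 / 3 - o(n ^ 2)` (`(9 / 25 - o(1)) n ^ 2` in `NineTwentyFifths`). If
`P` has a member with `ε n` isolated vertices, or a non-member with `ε n` vertices joined to all others,
then the bound `(1 / 2 - ε) n ^ 2` follows from the theorem of Kahn, Saks and Sturtevant for a prime
number of vertices slightly below `n`; the theorem here concerns the remaining, spanning and star-like,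
properties.

Proof. The vertices are cut into `k` blocks of size `Q` and `r` further vertices; let all pairs inside
the blocks be edges. Let the pairs of different blocks be unknown. If the bound fails, then the Euler
characteristic of the fixed complex of the group of all translations of the single blocks (Smith,
Lefschetz; Kahn, Saks and Sturtevant) gives a relation: the signed number of the graphs `H` on the
set of the `k` blocks for which `P` holds, if the blocks are joined according to `H`, is zero. In the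
first case the `r` further vertices form a clique joined to the block `0`. A graph of bandwidth
`β ≤ Q / (2 k)` can be placed on the blocks if `H` is connected: follow a closed walk of
length `2 (k - 1)` through all vertices of `H` (`exists_tour`, `embed`); if `H` is not connected, then
all components are too small. So `P` holds if and only if `H` is connected. But the signed number of
connected graphs on `k` vertices is not zero: modulo the prime `k` only the circulant graphs
count, and all of them but the empty one are connected (`pat_ne_zero`). In the second case the further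
vertices are distributed evenly to the blocks and the group is extended by the rotation of the blocks;
`P` fails if no blocks are joined and holds if the blocks of one difference are joined
(`no_jump`, `caseC`).
-/

namespace Pool.Agent.Results.MP_257582_lc.ConnectedBandwidth

open Pool.Agent.H119R2.Kp (GP dual)
open Pool.Agent.Helper243Ev (caseB caseC asymB floor_mul_le)

/-- `P` is monotone and isomorphism-invariant. -/
def MonoIso {n : ℕ} (P : SimpleGraph (Fin n) → Prop) : Prop :=
  (∀ G H : SimpleGraph (Fin n), G ≤ H → P G → P H) ∧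
    ∀ (σ : Fin n ≃ Fin n) (G : SimpleGraph (Fin n)), P G → P (G.map σ.toEmbedding)

/-- Every decision strategy `σ` (the next pair to be queried depends only on the answers to the
queries made so far) needs at least `b` queries: for every `q < b` there are two graphs that agree
on the first `q` queried pairs, one with and one without `P`. -/
def Needs {n : ℕ} (P : SimpleGraph (Fin n) → Prop) (b : ℝ) : Prop :=
  ∀ σ : Finset (Sym2 (Fin n)) → SimpleGraph (Fin n) → Sym2 (Fin n),
    (∀ (Q : Finset (Sym2 (Fin n))) (G H : SimpleGraph (Fin n)),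
        (∀ e ∈ Q, (e ∈ G.edgeSet ↔ e ∈ H.edgeSet)) → σ Q G = σ Q H) →
    ∀ q : ℕ, (q : ℝ) < b →
      ∃ G H : SimpleGraph (Fin n),
        (∀ e ∈ (fun Q : Finset (Sym2 (Fin n)) => insert (σ Q G) Q)^[q]
              (∅ : Finset (Sym2 (Fin n))),
            (e ∈ G.edgeSet ↔ e ∈ H.edgeSet)) ∧ P G ∧ ¬ P H

/-- `P` contains a graph of bandwidth at most `b`. -/
def LowBand {n : ℕ} (P : SimpleGraph (Fin n) → Prop) (b : ℝ) : Prop :=
  ∃ G : SimpleGraph (Fin n), P G ∧ ∀ i j : Fin n, G.Adj i j →
    |((i : ℕ) : ℝ) - ((j : ℕ) : ℝ)| ≤ b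

/-- Every member of `P` has a connected set of at least `x` vertices. -/
def BigSet {n : ℕ} (P : SimpleGraph (Fin n) → Prop) (x : ℝ) : Prop :=
  ∀ G : SimpleGraph (Fin n), P G →
    ∃ U : Set (Fin n), (G.induce U).Connected ∧ x ≤ (U.ncard : ℝ)

/-- The disjoint union of complete graphs on the intervals of length `m`. -/
def cliques (n m : ℕ) : SimpleGraph (Fin n) where
  Adj i j := i ≠ j ∧ (i : ℕ) / m = (j : ℕ) / m
  symm := ⟨fun _ _ h => ⟨h.1.symm, h.2.symm⟩⟩
  loopless := ⟨fun _ h => h.1 rfl⟩

/-- **Connectivity-like properties of small bandwidth.** -/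
theorem result :
    -- all `n`
    (∀ n k Q : ℕ, k.Prime → IsPrimePow Q → k * Q ≤ n →
      ∀ P : SimpleGraph (Fin n) → Prop, MonoIso P →
        (∃ P' : SimpleGraph (Fin n) → Prop, (P' = P ∨ P' = fun G => ¬ P Gᶜ) ∧
          LowBand P' (Q / (2 * k)) ∧ BigSet P' (n - Q + 1)) →
        Needs P (k.choose 2 * Q ^ 2)) ∧
    -- `n` divisible by `k`
    (∀ n k m Q : ℕ, k.Prime → IsPrimePow Q → n = k * m → Q ≤ m →
      ∀ P : SimpleGraph (Fin n) → Prop, MonoIso P →
        (∃ P' : SimpleGraph (Fin n) → Prop, (P' = P ∨ P' = fun G => ¬ P Gᶜ) ∧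
          LowBand P' (Q / 2) ∧ ¬ P' (cliques n m)) →
        Needs P (k.choose 2 * Q ^ 2)) ∧
    -- all large `n`
    (∀ k : ℕ, k.Prime → ∀ η : ℝ, 0 < η → ∃ n₀ : ℕ, ∀ n ≥ n₀,
      ∀ P : SimpleGraph (Fin n) → Prop, MonoIso P →
        (∃ P' : SimpleGraph (Fin n) → Prop, (P' = P ∨ P' = fun G => ¬ P Gᶜ) ∧
          ((LowBand P' (n / (3 * k ^ 2)) ∧ BigSet P' ((1 - 1 / k + η) * n)) ∨
            (k ∣ n ∧ LowBand P' ((1 / (2 * k) - η) * n) ∧ ¬ P' (cliques n (n / k))))) →
        Needs P ((1 - 1 / k - η) * n ^ 2 / 2)) ∧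
    -- almost all pairs have to be queried
    (∀ ε : ℝ, 0 < ε → ∃ δ : ℝ, 0 < δ ∧ ∃ n₀ : ℕ, ∀ n ≥ n₀,
      ∀ P : SimpleGraph (Fin n) → Prop, MonoIso P →
        (∃ P' : SimpleGraph (Fin n) → Prop, (P' = P ∨ P' = fun G => ¬ P Gᶜ) ∧
          LowBand P' (δ * n) ∧ BigSet P' ((1 - δ) * n)) →
        Needs P ((1 / 2 - ε) * n ^ 2)) := by
  have hGP : ∀ {n : ℕ} {P P' : SimpleGraph (Fin n) → Prop} (_ : MonoIso P)
      (_ : P' = P ∨ P' = fun G => ¬ P Gᶜ) {b : ℝ} (_ : ¬ Needs P b),
      ∃ q : ℕ, (q : ℝ) < b ∧ GP n q P' := by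
    intro n P P' hP hPP b hb
    unfold Needs at hb
    push Not at hb
    obtain ⟨σ, hσ, q, hq, hcon⟩ := hb
    have h : GP n q P := ⟨hP.1, hP.2,
      Pool.Agent.H119R2.Kp.dec_of_strategy _ P σ hσ fun G H hGH hPG => hcon G H hGH hPG⟩
    refine ⟨q, hq, ?_⟩
    rcases hPP with rfl | rfl
    · exact h
    · exact h.dual'
  have h3 : ∀ k : ℕ, k.Prime → ∀ η : ℝ, 0 < η → ∃ n₀ : ℕ, ∀ n ≥ n₀,
      ∀ P : SimpleGraph (Fin n) → Prop, MonoIso P →
        (∃ P' : SimpleGraph (Fin n) → Prop, (P' = P ∨ P' = fun G => ¬ P Gᶜ) ∧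
          ((LowBand P' (n / (3 * k ^ 2)) ∧ BigSet P' ((1 - 1 / k + η) * n)) ∨
            (k ∣ n ∧ LowBand P' ((1 / (2 * k) - η) * n) ∧ ¬ P' (cliques n (n / k))))) →
        Needs P ((1 - 1 / k - η) * n ^ 2 / 2) := by
    intro k hk η hη
    obtain ⟨n₀, hn₀⟩ := asymB k hk η hη
    refine ⟨n₀, fun n hn P hP hc => ?_⟩
    by_contra hb
    obtain ⟨P', hPP, hc⟩ := hc
    obtain ⟨q, hq, h⟩ := hGP hP hPP hb
    exact absurd hq (not_lt.2 (hn₀ n hn q P' h hc))
  refine ⟨?_, ?_, h3, ?_⟩
  · intro n k Q hk hQ hn P hP hc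
    by_contra hb
    obtain ⟨P', hPP, hL, hB⟩ := hc
    obtain ⟨q, hq, h⟩ := hGP hP hPP hb
    obtain ⟨p, a, hp, ha, rfl⟩ := (isPrimePow_nat_iff Q).1 hQ
    have hq' : q < k.choose 2 * (p ^ a) ^ 2 := by
      push_cast at hq
      exact_mod_cast hq
    have hk0 : (0 : ℝ) < k := by exact_mod_cast hk.pos
    refine caseB (D := n - p ^ a + 1) h hp hk hn hq' ?_
      (Pool.Agent.Helper243Ev.LowBand.nat hL) ?_ ?_
    · refine floor_mul_le (y := ((p ^ a : ℕ) : ℝ)) ?_ le_rfl
      push_cast
      rw [mul_div_cancel₀]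
      positivity
    · omega
    · intro G hG
      obtain ⟨U, hU1, hU2⟩ := hB G hG
      refine ⟨U, ?_, hU1⟩
      have h1 : p ^ a ≤ n := by
        have := hk.pos
        nlinarith
      have h2 : ((n - p ^ a + 1 : ℕ) : ℝ) ≤ (U.ncard : ℝ) := by
        rw [Nat.cast_add, Nat.cast_sub h1]
        exact_mod_cast hU2
      exact_mod_cast h2
  · intro n k m Q hk hQ hn hQm P hP hc
    by_contra hb
    obtain ⟨P', hPP, hL, hB⟩ := hc
    obtain ⟨q, hq, h⟩ := hGP hP hPP hb
    obtain ⟨p, a, hp, ha, rfl⟩ := (isPrimePow_nat_iff Q).1 hQ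
    have hq' : q < k.choose 2 * (p ^ a) ^ 2 := by
      push_cast at hq
      exact_mod_cast hq
    refine caseC h hp hk hn hQm hq' ?_ (Pool.Agent.Helper243Ev.LowBand.nat hL) hB
    refine floor_mul_le (y := ((p ^ a : ℕ) : ℝ)) ?_ le_rfl
    push_cast
    rw [mul_div_cancel₀]
    norm_num
  · intro ε hε
    obtain ⟨k, hk1, hk⟩ := Nat.exists_infinite_primes (⌈1 / ε⌉₊ + 1)
    have hkε : 1 / ε ≤ k := by
      have h1 : ⌈1 / ε⌉₊ ≤ k := by omega
      exact Nat.ceil_le.1 h1
    have hk0 : (0 : ℝ) < k := by exact_mod_cast hk.pos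
    have hk2 : (2 : ℝ) ≤ k := by exact_mod_cast hk.two_le
    have hkε' : 1 / (k : ℝ) ≤ ε := by
      rw [div_le_iff₀ hk0]
      rw [div_le_iff₀ hε] at hkε
      linarith
    set δ : ℝ := 1 / (3 * k ^ 2) with hδ
    have hδ0 : 0 < δ := by positivity
    obtain ⟨n₀, hn₀⟩ := h3 k hk (min ε (1 / k - δ)) (lt_min hε (by
      rw [hδ, sub_pos]
      apply one_div_lt_one_div_of_lt hk0
      nlinarith))
    refine ⟨δ, hδ0, n₀, fun n hn P hP hc => ?_⟩
    obtain ⟨P', hPP, ⟨G, hG1, hG2⟩, hB⟩ := hc
    have hn0 : (0 : ℝ) ≤ n := Nat.cast_nonneg n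
    have key := hn₀ n hn P hP ⟨P', hPP, Or.inl ⟨⟨G, hG1, fun i j hij => ?_⟩, ?_⟩⟩
    · intro σ hσ q hq
      refine key σ hσ q (lt_of_lt_of_le hq ?_)
      have h1 : min ε (1 / (k : ℝ) - δ) ≤ ε := min_le_left _ _
      have h2 : 0 ≤ (n : ℝ) ^ 2 := by positivity
      have h4 : (1 / 2 - ε) * (n : ℝ) ^ 2 =
          (1 - ε - ε) * n ^ 2 / 2 := by ring
      rw [h4]
      apply div_le_div_of_nonneg_right _ (by norm_num)
      apply mul_le_mul_of_nonneg_right _ h2
      linarith
    · refine (hG2 i j hij).trans (le_of_eq ?_)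
      rw [hδ]
      ring
    · intro G' hG'
      obtain ⟨U, hU1, hU2⟩ := hB G' hG'
      refine ⟨U, hU1, le_trans ?_ hU2⟩
      apply mul_le_mul_of_nonneg_right _ hn0
      have h1 : min ε (1 / (k : ℝ) - δ) ≤ 1 / k - δ := min_le_right _ _
      linarith

end Pool.Agent.Results.MP_257582_lc.ConnectedBandwidth
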