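import Pool.Agent.Helper243_Ev.CaseK
import Pool.Agent.H119R2.Kp.D4
import Pool.Agent.H119R2.Kp.PVE

set_option autoImplicit false

/-!
# Near-evasiveness for graphs on `k Q` vertices, `k` prime, `Q` a prime power (MP_257582_lc)

Let `k ≥ 3` be a prime, `Q` a prime power, `n = k Q`, and `P` a non-trivial monotone
isomorphism-invariant property of graphs on `n` vertices. The lower bound `C(k, 2) Q ^ 2`, which is
`(1 - 1 / k) n ^ 2 / 2` (all but at most one `(k - 1)`-th of the pairs have to be queried), holds in the
following cases.

* ALL properties `P`, if `(k - 1) / 2 = c l ^ N` with an odd prime `l`, `c` equal to `1` or a prime power,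
  and `2 ^ c < 4 l`. This extends `PrimeMultiples` (`(k - 1) / 2` a prime power or twice a prime power) to
  `k = 31, 41, 43, 67, 79, 89, 103, 131, 137, 139, 151, 191, 223, 233, 283, 311, …`.
* All primes `k`, if `P` or its dual contains a subgraph of the balanced blow-up of the cycle of
  length `k` (`k` independent sets of size `Q`, consecutive ones are completely joined).
* All primes `k`, if `P` or its dual contains a cyclic chain of `k` graphs on `Q` vertices (edges inside of
  the `k` sets and between consecutive ones, for example if it contains a graph of bandwidth at most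
  `Q`), and `Q` is a power of 2 or the property fails for the disjoint union of `k` cliques on `Q`
  vertices.

The best lower bound for these `n` that does not use the form of `P` is `(9 / 25 - o(1)) n ^ 2`
(`NineTwentyFifths`), published: `n ^ 2 / 3 - o(n ^ 2)`.

Proof. As in `PrimeMultiples` the vertices are cut into `k` blocks, elementary abelian groups of
order `Q`; fix a translation invariant graph `X` inside the blocks. The group generated by the
translations of the single blocks and the rotation of the blocks gives a linear relation, the signed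
number of the sets `T` of differences (up to sign) of joined blocks such that `P` holds is zero (Smith,
Lefschetz; Kahn, Saks and Sturtevant). The sets `T` form a monotone family on `(k - 1) / 2` points that
is invariant under a cyclic permutation of all points. If the empty set is not in the family but
all of it is, then for `(k - 1) / 2 = c l ^ N` the signed number is nonzero: modulo `l` only the sets that
are periodic with period `c` count; these form a monotone family on `c` points that is
invariant under rotation, so its signed number is not divisible by the prime in `c` and is at most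
`2 ^ (c - 2) < l` in absolute value, hence it is not divisible by `l` (`signed_ne_zero`). The rest of the first part is as in `PrimeMultiples`. For the second
part: if the empty set is not in the family and all nonempty sets are, then the signed number is `-1`
(`no_jump`); as `k` is prime the blow-ups for all differences `t ≠ 0` are isomorphic; take `X = ∅` or `X`
complete. For `Q = 2 ^ a` the case that `P` holds for `k` disjoint cliques is excluded by the theorem of
the starting library on blocks of size `2 ^ a` (`Y46.Kc.two`).
-/

namespace Pool.Agent.Results.MP_257582_lc.MorePrimeMultiples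

open Pool.Agent.H119R2.Kp (GP dual)
open Pool.Agent.Helper243Ev (caseA caseL caseZ caseM)

/-- `P` is monotone and isomorphism-invariant. -/
def MonoIso {n : ℕ} (P : SimpleGraph (Fin n) → Prop) : Prop :=
  (∀ G H : SimpleGraph (Fin n), G ≤ H → P G → P H) ∧
    ∀ (σ : Fin n ≃ Fin n) (G : SimpleGraph (Fin n)), P G → P (G.map σ.toEmbedding)

/-- Every decision strategy `σ` (the next pair to be queried depends only on the answers to the
queries made so far) needs at least `b` queries: for every `q < b` there are two graphs that agree
on the first `q` queried pairs, one with and one without `P`. -/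
def Needs {n : ℕ} (P : SimpleGraph (Fin n) → Prop) (b : ℕ) : Prop :=
  ∀ σ : Finset (Sym2 (Fin n)) → SimpleGraph (Fin n) → Sym2 (Fin n),
    (∀ (Q : Finset (Sym2 (Fin n))) (G H : SimpleGraph (Fin n)),
        (∀ e ∈ Q, (e ∈ G.edgeSet ↔ e ∈ H.edgeSet)) → σ Q G = σ Q H) →
    ∀ q : ℕ, q < b →
      ∃ G H : SimpleGraph (Fin n),
        (∀ e ∈ (fun Q : Finset (Sym2 (Fin n)) => insert (σ Q G) Q)^[q]
              (∅ : Finset (Sym2 (Fin n))),
            (e ∈ G.edgeSet ↔ e ∈ H.edgeSet)) ∧ P G ∧ ¬ P H

/-- `(k - 1) / 2 = c l ^ N` with an odd prime `l`, `c` equal to `1` or a prime power, `2 ^ c < 4 l`. -/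
def Good (k : ℕ) : Prop :=
  ∃ c l N : ℕ, (c = 1 ∨ IsPrimePow c) ∧ l.Prime ∧ l ≠ 2 ∧ 2 ^ c < 4 * l ∧ k = 2 * (c * l ^ N) + 1

/-- All edges of `G` are between consecutive sets, in the cyclic order, of a partition of the
vertices into `k` sets of at most `m` vertices. -/
def CycleBlowup (k m : ℕ) {n : ℕ} (G : SimpleGraph (Fin n)) : Prop :=
  ∃ c : Fin n → ZMod k, (∀ b, {i | c i = b}.ncard ≤ m) ∧
    ∀ i j, G.Adj i j → (c j = c i + 1 ∨ c i = c j + 1)

/-- All edges of `G` are inside or between consecutive sets, in the cyclic order, of `k` disjoint sets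
of at most `m` vertices. -/
def CyclicChain (k m : ℕ) {n : ℕ} (G : SimpleGraph (Fin n)) : Prop :=
  ∃ c : Fin n → Option (ZMod k), (∀ b, {i | c i = some b}.ncard ≤ m) ∧
    ∀ i j, G.Adj i j → ∃ a b, c i = some a ∧ c j = some b ∧ (a = b ∨ b = a + 1 ∨ a = b + 1)

/-- All edges of `G` are inside of `k` disjoint sets of at most `m` vertices. -/
def Split (k m : ℕ) {n : ℕ} (G : SimpleGraph (Fin n)) : Prop :=
  ∃ c : Fin n → Option (ZMod k), (∀ b, {i | c i = some b}.ncard ≤ m) ∧
    ∀ i j, G.Adj i j → ∃ b, c i = some b ∧ c j = some b

/-- **Near-evasiveness for `n = k Q`.** -/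
theorem result (n k Q : ℕ) (hk : k.Prime) (hQ : IsPrimePow Q) (hn : n = k * Q)
    (P : SimpleGraph (Fin n) → Prop) (hP : MonoIso P) (hbot : ¬ P ⊥) (htop : P ⊤)
    (h : Good k ∨ ∃ P' : SimpleGraph (Fin n) → Prop, (P' = P ∨ P' = fun G => ¬ P Gᶜ) ∧
      ((∃ G, P' G ∧ CycleBlowup k Q G) ∨
        ((∃ G, P' G ∧ CyclicChain k Q G) ∧
          ((∃ a : ℕ, Q = 2 ^ a) ∨ ∀ G, P' G → ¬ Split k Q G)))) :
    Needs P (k.choose 2 * Q ^ 2) := by
  intro σ hσ q hq
  by_contra hcon
  have hGP : GP n q P := ⟨hP.1, hP.2,
    Pool.Agent.H119R2.Kp.dec_of_strategy _ P σ hσ fun G H hGH hPG => by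
      by_contra hPH
      exact hcon ⟨G, H, hGH, hPG, hPH⟩⟩
  obtain ⟨p, a, hp, ha, rfl⟩ := (isPrimePow_nat_iff Q).1 hQ
  rcases h with ⟨c, l, N, hc, hl, hl2, hcl, hkc⟩ | ⟨P', hPP, h⟩
  · rcases hc with rfl | hc
    · exact caseM hGP hp hk hn hq (q0 := 2) (i := 0) (N := N) Nat.prime_two hl (pow_zero _) hl2 hcl
        (by omega) hbot htop
    · obtain ⟨q0, i, hq0, hi, hci⟩ := (isPrimePow_nat_iff c).1 hc
      exact caseM hGP hp hk hn hq (N := N) hq0 hl hci hl2 hcl (by omega) hbot htop
  · have hP' : GP n q P' ∧ ¬ P' ⊥ := by
      rcases hPP with rfl | rfl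
      · exact ⟨hGP, hbot⟩
      · refine ⟨hGP.dual', fun h => h ?_⟩
        rwa [compl_bot]
    obtain ⟨hG', hbot'⟩ := hP'
    rcases h with h | ⟨h1, h2 | h2⟩
    · exact caseZ hG' hp hk hn hq hbot' h
    · obtain ⟨b, hb⟩ := h2
      have h3 := caseL hG' hk (a := b) (by rw [hn, hb]) hbot' (by
        rw [← hb]
        exact h1)
      rw [← hb] at h3
      exact absurd hq (not_lt.2 h3)
    · exact caseA hG' hp hk (by rw [hn]) hq h1 h2

end Pool.Agent.Results.MP_257582_lc.MorePrimeMultiples
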