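import Pool.Agent.Helper243_Ev.TwinEx

set_option autoImplicit false

/-!
# Monotone properties that are invariant under the duplication of vertices (MP_257582_lc)

Let `F` be a monotone property of graphs (of all sizes) that does not change if a vertex is replaced by
a complete graph whose vertices have the same neighbours outside (duplication of vertices). Then for
all `n` the property of graphs on `n` vertices is nearly evasive: at least `C(p, 2)` queries are needed
for every prime `p ≤ n` such that the property is not trivial for `p` vertices. So if `F` is not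
trivial for `m ≤ (1 - ε) n` vertices, then at least `(1 / 2 - ε) n ^ 2` queries are needed, for
all `n ≥ n₀(ε)`, with `n₀` independent of `F`.

Examples: the domination number is at most `s`; all vertices have distance at most `d` from some `s`
vertices (radius at most `d` for `s = 1`); the diameter is at most `d`. These properties hold as
soon as one vertex is joined to all others and fail (for `s = 1`, and for the diameter) as soon as
there is an isolated vertex, so that the reductions to a smaller number of vertices known before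
(Kleitman and Kwiatkowski; Kahn, Saks and Sturtevant), which fix isolated vertices or vertices joined
to all others, do not apply, and the best lower bound for general `n` was the universal one,
`n ^ 2 / 3 - o(n ^ 2)` (`(9 / 25 - o(1)) n ^ 2` in `NineTwentyFifths`).

Proof. If `n ≥ p`, then a strategy for `n` vertices gives one for `p` vertices: duplicate vertices of the
graph on `p` vertices, every query is then either about two copies of the same vertex or about
a pair of vertices of the graph on `p` vertices. For a prime number of vertices the property is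
evasive (Kahn, Saks and Sturtevant, `prime_base` of the starting library).
-/

namespace Pool.Agent.Results.MP_257582_lc.TwinInvariant

open Pool.Agent.H119R2.Kp (GP)
open Pool.Agent.Helper243Ev.Twin (blow)

/-- Every decision strategy `σ` (the next pair to be queried depends only on the answers to the
queries made so far) needs at least `b` queries: for every `q < b` there are two graphs that agree
on the first `q` queried pairs, one with and one without `P`. -/
def Needs {n : ℕ} (P : SimpleGraph (Fin n) → Prop) (b : ℝ) : Prop :=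
  ∀ σ : Finset (Sym2 (Fin n)) → SimpleGraph (Fin n) → Sym2 (Fin n),
    (∀ (Q : Finset (Sym2 (Fin n))) (G H : SimpleGraph (Fin n)),
        (∀ e ∈ Q, (e ∈ G.edgeSet ↔ e ∈ H.edgeSet)) → σ Q G = σ Q H) →
    ∀ q : ℕ, (q : ℝ) < b →
      ∃ G H : SimpleGraph (Fin n),
        (∀ e ∈ (fun Q : Finset (Sym2 (Fin n)) => insert (σ Q G) Q)^[q]
              (∅ : Finset (Sym2 (Fin n))),
            (e ∈ G.edgeSet ↔ e ∈ H.edgeSet)) ∧ P G ∧ ¬ P H

/-- `F` is a monotone property of graphs that is invariant under the duplication of vertices: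
for every surjective map `π` from `n` to `m` vertices and every graph `H` on `m` vertices, the graph
`blow π H`, in which different vertices `i`, `j` are adjacent if `π i = π j` or `π i` and `π j` are
adjacent in `H`, has the property if and only if `H` has it (for bijective `π`: invariance
under isomorphisms). -/
def MonoTwin (F : ∀ n : ℕ, SimpleGraph (Fin n) → Prop) : Prop :=
  (∀ (n : ℕ) (G H : SimpleGraph (Fin n)), G ≤ H → F n G → F n H) ∧
    ∀ (n m : ℕ) (π : Fin n → Fin m), Function.Surjective π → ∀ H : SimpleGraph (Fin m),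
      F n (blow π H) ↔ F m H

/-- Some `s` vertices are such that all vertices have distance at most `d` from one of them. -/
def Center (s d : ℕ) {n : ℕ} (G : SimpleGraph (Fin n)) : Prop :=
  ∃ S : Finset (Fin n), S.card ≤ s ∧ ∀ v, ∃ u ∈ S, ∃ w : G.Walk u v, w.length ≤ d

/-- All distances are at most `d`. -/
def Diameter (d : ℕ) {n : ℕ} (G : SimpleGraph (Fin n)) : Prop :=
  ∀ u v, ∃ w : G.Walk u v, w.length ≤ d

/-- **Monotone properties invariant under the duplication of vertices are nearly evasive.** -/
theorem result :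
    (∀ F : ∀ n : ℕ, SimpleGraph (Fin n) → Prop, MonoTwin F →
      ∀ n p m : ℕ, p.Prime → 0 < m → m ≤ p → p ≤ n → (∃ G, F m G) → (∃ G, ¬ F m G) →
        Needs (F n) (p.choose 2 : ℕ)) ∧
    (∀ ε : ℝ, 0 < ε → ∃ n₀ : ℕ, ∀ n ≥ n₀,
      (∀ F : ∀ n : ℕ, SimpleGraph (Fin n) → Prop, MonoTwin F →
        ∀ m : ℕ, 0 < m → (m : ℝ) ≤ (1 - ε) * n → (∃ G, F m G) → (∃ G, ¬ F m G) →
          Needs (F n) ((1 / 2 - ε) * n ^ 2)) ∧
      (∀ s d : ℕ, 1 ≤ s → 1 ≤ d → (s + 1 : ℝ) ≤ (1 - ε) * n →
        Needs (fun G : SimpleGraph (Fin n) => Center s d G) ((1 / 2 - ε) * n ^ 2)) ∧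
      (∀ d : ℕ, 1 ≤ d →
        Needs (fun G : SimpleGraph (Fin n) => Diameter d G) ((1 / 2 - ε) * n ^ 2))) := by
  have hGP : ∀ (F : ∀ n : ℕ, SimpleGraph (Fin n) → Prop), MonoTwin F → ∀ {n : ℕ} {b : ℝ},
      ¬ Needs (F n) b → ∃ q : ℕ, (q : ℝ) < b ∧ GP n q (F n) := by
    intro F hF n b hb
    unfold Needs at hb
    push Not at hb
    obtain ⟨σ, hσ, q, hq, hcon⟩ := hb
    exact ⟨q, hq, hF.1 n, fun σ G hG => Pool.Agent.Helper243Ev.Twin.TwinInv.iso hF.2 σ G hG,
      Pool.Agent.H119R2.Kp.dec_of_strategy _ (F n) σ hσ fun G H hGH hPG => hcon G H hGH hPG⟩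
  have hcen : ∀ s d : ℕ, 1 ≤ d → MonoTwin (Pool.Agent.Helper243Ev.Twin.Cen s d) := fun s d hd =>
    ⟨Pool.Agent.Helper243Ev.Twin.cen_mono s d, Pool.Agent.Helper243Ev.Twin.cen_twin s d hd⟩
  have hdia : ∀ d : ℕ, 1 ≤ d → MonoTwin (Pool.Agent.Helper243Ev.Twin.Dia d) := fun d hd =>
    ⟨Pool.Agent.Helper243Ev.Twin.dia_mono d, Pool.Agent.Helper243Ev.Twin.dia_twin d hd⟩
  refine ⟨?_, ?_⟩
  · intro F hF n p m hp hm hmp hpn h1 h0
    by_contra hb
    obtain ⟨q, hq, h⟩ := hGP F hF hb
    have key := Pool.Agent.Helper243Ev.Twin.prime_bound hF.1 hF.2 hp hm hmp hpn h1 h0 h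
    have key2 : ((p.choose 2 : ℕ) : ℝ) ≤ q := by exact_mod_cast key
    linarith
  · intro ε hε
    obtain ⟨n₀, hn₀⟩ := Pool.Agent.Helper243Ev.Twin.asym ε hε
    have main : ∀ n ≥ n₀, ∀ F : ∀ n : ℕ, SimpleGraph (Fin n) → Prop, MonoTwin F →
        ∀ m : ℕ, 0 < m → (m : ℝ) ≤ (1 - ε) * n → (∃ G, F m G) → (∃ G, ¬ F m G) →
          Needs (F n) ((1 / 2 - ε) * n ^ 2) := by
      intro n hn F hF m hm hmn h1 h0
      by_contra hb
      obtain ⟨q, hq, h⟩ := hGP F hF hb
      have key := hn₀ n hn F hF.1 hF.2 m hm hmn h1 h0 q h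
      linarith
    refine ⟨max n₀ ⌈2 / (1 - ε)⌉₊, fun n hn => ?_⟩
    have hn1 : n ≥ n₀ := le_trans (le_max_left _ _) hn
    refine ⟨main n hn1, ?_, ?_⟩
    · intro s d hs hd hsn
      exact main n hn1 _ (hcen s d hd) (s + 1) (Nat.succ_pos s) (by push_cast; exact hsn)
        ⟨⊤, Pool.Agent.Helper243Ev.Twin.cen_top s d hs hd (s + 1) (Nat.succ_pos s)⟩
        ⟨⊥, Pool.Agent.Helper243Ev.Twin.cen_bot s d⟩
    · intro d hd
      rcases lt_or_ge ε 1 with hε1 | hε1
      · refine main n hn1 _ (hdia d hd) 2 (by norm_num) ?_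
          ⟨⊤, Pool.Agent.Helper243Ev.Twin.dia_top d hd 2⟩
          ⟨⊥, Pool.Agent.Helper243Ev.Twin.dia_bot d⟩
        have h1 : ⌈2 / (1 - ε)⌉₊ ≤ n := le_trans (le_max_right _ _) hn
        have h2 := Nat.ceil_le.1 h1
        rw [div_le_iff₀ (by linarith)] at h2
        push_cast
        linarith
      · intro σ hσ q hq
        exfalso
        have h1 : (0 : ℝ) ≤ q := Nat.cast_nonneg q
        have h2 : (0 : ℝ) ≤ (n : ℝ) ^ 2 := by positivity
        nlinarith

end Pool.Agent.Results.MP_257582_lc.TwinInvariant
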